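import Mathlib
import Pool.Agent.Helper74.SSQ.Color

set_option autoImplicit false

/-!
The integer form of Birkhoff's theorem: a nonnegative integer matrix with all row and column sums
`w` is a sum of `w` permutation matrices.
-/

namespace Pool.Agent.Helper32.SSQ

open Finset

theorem birkhoff {L R : Type} [Fintype L] [Fintype R] [DecidableEq L] [DecidableEq R]
    (mult : L → R → ℕ) (w : ℕ) (hl : ∀ u, ∑ v, mult u v = w) (hr : ∀ v, ∑ u, mult u v = w) :
    ∃ π : Fin w → L → R, (∀ i, Function.Bijective (π i)) ∧
      ∀ u v, (univ.filter (fun i => π i u = v)).card = mult u v := by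
  classical
  let E : Type := Σ p : L × R, Fin (mult p.1 p.2)
  let l : E → L := fun e => e.1.1
  let r : E → R := fun e => e.1.2
  have key : ∀ (Q : L × R → Prop) [DecidablePred Q], ((univ : Finset E).filter (fun e => Q e.1)).card =
      ∑ p : L × R, if Q p then mult p.1 p.2 else 0 := by
    intro Q _
    rw [Finset.card_filter]
    rw [Fintype.sum_sigma]
    apply Finset.sum_congr rfl
    intro p _
    by_cases h : Q p
    · simp [h]
    · simp [h]
  obtain ⟨c, hc, hcl, hcr⟩ := Pool.Agent.Helper74.SSQ.konig l r w (univ : Finset E) (by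
    intro u
    rw [key (fun p => p.1 = u), Fintype.sum_prod_type]
    rw [← hl u]
    rw [Finset.sum_eq_single u]
    · simp
    · intro b _ hb
      simp [hb]
    · simp) (by
    intro v
    rw [key (fun p => p.2 = v), Fintype.sum_prod_type_right]
    rw [← hr v]
    rw [Finset.sum_eq_single v]
    · simp
    · intro b _ hb
      simp [hb]
    · simp)
  have hex : ∀ (i : Fin w) (u : L), ∃ e : E, l e = u ∧ c e = i := by
    intro i u
    obtain ⟨e, he⟩ := Finset.card_eq_one.1 (hcl u i i.2)
    have : e ∈ (univ : Finset E).filter (fun e => l e = u ∧ c e = i) := by rw [he]; simp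
    simp only [Finset.mem_filter, Finset.mem_univ, true_and] at this
    exact ⟨e, this⟩
  have hul : ∀ e e' : E, l e = l e' → c e = c e' → e = e' := by
    intro e e' h1 h2
    have h := Finset.card_eq_one.1 (hcl (l e) (c e) (hc e (mem_univ _)))
    obtain ⟨x, hx⟩ := h
    have m1 : e ∈ (univ : Finset E).filter (fun e1 => l e1 = l e ∧ c e1 = c e) := by simp
    have m2 : e' ∈ (univ : Finset E).filter (fun e1 => l e1 = l e ∧ c e1 = c e) := by
      simp [h1, h2]
    rw [hx, Finset.mem_singleton] at m1 m2
    rw [m1, m2]
  have hur : ∀ e e' : E, r e = r e' → c e = c e' → e = e' := by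
    intro e e' h1 h2
    have h := Finset.card_eq_one.1 (hcr (r e) (c e) (hc e (mem_univ _)))
    obtain ⟨x, hx⟩ := h
    have m1 : e ∈ (univ : Finset E).filter (fun e1 => r e1 = r e ∧ c e1 = c e) := by simp
    have m2 : e' ∈ (univ : Finset E).filter (fun e1 => r e1 = r e ∧ c e1 = c e) := by
      simp [h1, h2]
    rw [hx, Finset.mem_singleton] at m1 m2
    rw [m1, m2]
  choose f hf1 hf2 using hex
  refine ⟨fun i u => r (f i u), ?_, ?_⟩
  · intro i
    refine ⟨?_, ?_⟩
    · intro u u' h
      have : f i u = f i u' := hur _ _ h (by rw [hf2, hf2])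
      rw [← hf1 i u, this, hf1]
    · intro v
      obtain ⟨e, he⟩ := Finset.card_eq_one.1 (hcr v i i.2)
      have : e ∈ (univ : Finset E).filter (fun e => r e = v ∧ c e = i) := by rw [he]; simp
      simp only [Finset.mem_filter, Finset.mem_univ, true_and] at this
      refine ⟨l e, ?_⟩
      have h2 : f i (l e) = e := hul _ _ (hf1 _ _) (by rw [hf2, this.2])
      show r (f i (l e)) = v
      rw [h2]
      exact this.1
  · intro u v
    have h1 : mult u v = ((univ : Finset E).filter (fun e => e.1 = (u, v))).card := by
      rw [key (fun p => p = (u, v))]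
      simp
    rw [h1]
    apply Finset.card_nbij' (i := fun i => f i u)
      (j := fun e => if h : c e < w then (⟨c e, h⟩ : Fin w) else ⟨c e, hc e (mem_univ _)⟩)
    · intro i hi
      simp only [Finset.coe_filter, Finset.mem_univ, true_and, Set.mem_ofPred_eq] at hi ⊢
      exact Prod.ext (hf1 i u) hi
    · intro e he
      simp only [Finset.coe_filter, Finset.mem_univ, true_and, Set.mem_ofPred_eq] at he ⊢
      have h2 : l e = u := by show e.1.1 = u; rw [he]
      have h3 : r e = v := by show e.1.2 = v; rw [he]
      have hce : c e < w := hc e (mem_univ _)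
      rw [dif_pos hce]
      have : f ⟨c e, hce⟩ u = e := hul _ _ (by rw [hf1, h2]) (by rw [hf2])
      rw [this, h3]
    · intro i hi
      have : c (f i u) < w := hc _ (mem_univ _)
      simp only [dif_pos this]
      apply Fin.ext
      simp [hf2]
    · intro e he
      simp only [Finset.coe_filter, Finset.mem_univ, true_and, Set.mem_ofPred_eq] at he ⊢
      have h2 : l e = u := by show e.1.1 = u; rw [he]
      have hce : c e < w := hc e (mem_univ _)
      rw [dif_pos hce]
      exact hul _ _ (by rw [hf1, h2]) (by rw [hf2])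

/-- An equivalence between finite types matching two predicates. -/
theorem equiv_pred {α β : Type} [Fintype α] [Fintype β] (p : α → Prop) (q : β → Prop)
    [DecidablePred p] [DecidablePred q]
    (h1 : (univ.filter p).card = (univ.filter q).card) (h2 : Fintype.card α = Fintype.card β) :
    ∃ e : α ≃ β, ∀ a, q (e a) ↔ p a := by
  have e1 : Fintype.card {a // p a} = Fintype.card {b // q b} := by
    rw [Fintype.card_subtype, Fintype.card_subtype, h1]
  have e2 : Fintype.card {a // ¬ p a} = Fintype.card {b // ¬ q b} := by
    rw [Fintype.card_subtype_compl, Fintype.card_subtype_compl, h2, e1]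
  refine ⟨((Equiv.sumCompl p).symm.trans ((Equiv.sumCongr (Fintype.equivOfCardEq e1)
    (Fintype.equivOfCardEq e2)).trans (Equiv.sumCompl q))), ?_⟩
  intro a
  by_cases ha : p a
  · simp only [Equiv.trans_apply, Equiv.sumCompl_symm_apply_of_pos ha, Equiv.sumCongr_apply,
      Sum.map_inl, Equiv.sumCompl_apply_inl, ha, iff_true]
    exact (Fintype.equivOfCardEq e1 ⟨a, ha⟩).2
  · simp only [Equiv.trans_apply, Equiv.sumCompl_symm_apply_of_neg ha, Equiv.sumCongr_apply,
      Sum.map_inr, Equiv.sumCompl_apply_inr, ha, iff_false]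
    exact (Fintype.equivOfCardEq e2 ⟨a, ha⟩).2

end Pool.Agent.Helper32.SSQ
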